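import Pool.Agent.T2H06.DYN.AbsC

/-!
The largest growth rates for `F 0` and for `F j` are equal; the growth rates are concave.
-/

set_option autoImplicit false
set_option linter.unusedVariables false

open Filter Topology
open Pool.Agent.T2H06.DYN

namespace Pool.Agent.T2H06.DYG

/-- the growth rates are concave -/
theorem rate_concave {N : ℕ} {F : Multiset ℤ → ℝ} (hF : Lor N F) {d : ℕ → ℝ}
    (hd : ∀ p ≤ N, Tendsto (fun m : ℕ => LD F N p m / m) atTop (𝓝 (d p))) {i : ℕ}
    (hi : i + 2 ≤ N) : d i + d (i + 2) ≤ 2 * d (i + 1) := by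
  have h1 : ∀ m : ℕ, LD F N i m / m + LD F N (i + 2) m / m ≤
      2 * (LD F N (i + 1) m / m) + Real.log 4 / m := by
    intro m
    obtain ⟨l, hl⟩ : ∃ l, i + l + 2 = N := ⟨N - i - 2, by omega⟩
    have hω : (tri m 0 0 i 0 l).card + 2 = N := by rw [tri_card]; omega
    have h1 := hF.four (tri m 0 0 i 0 l) m m 0 0 hω
    simp only [cons_tri_a, cons_tri_c] at h1
    have hpos : ∀ i' l', i' + l' = N → 0 < F (tri m 0 0 i' 0 l') := fun i' l' h' =>
      hF.pos _ (by rw [tri_card]; omega)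
    have p1 := hpos (i + 1 + 1) l (by omega)
    have p2 := hpos i (l + 1 + 1) (by omega)
    have p3 := hpos (i + 1) (l + 1) (by omega)
    have h2 : F (tri m 0 0 (i + 1 + 1) 0 l) * F (tri m 0 0 i 0 (l + 1 + 1)) ≤
        F (tri m 0 0 (i + 1) 0 (l + 1)) * F (tri m 0 0 (i + 1) 0 (l + 1)) * 4 := by
      refine h1.trans (le_of_eq ?_)
      ring
    have h3 := Real.log_le_log (mul_pos p1 p2) h2
    rw [Real.log_mul p1.ne' p2.ne', Real.log_mul (mul_pos p3 p3).ne' (by norm_num),
      Real.log_mul p3.ne' p3.ne'] at h3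
    have e1 : N - i = l + 2 := by omega
    have e2 : N - (i + 2) = l := by omega
    have e3 : N - (i + 1) = l + 1 := by omega
    rw [← mul_div_assoc, ← add_div, ← add_div]
    refine div_le_div_of_nonneg_right ?_ (Nat.cast_nonneg _)
    unfold LD
    rw [e1, e2, e3]
    linarith
  have h2 := (((hd (i + 1) (by omega)).const_mul 2).add
    (tendsto_const_div_atTop_nhds_zero_nat (Real.log 4)))
  rw [add_zero] at h2
  exact le_of_tendsto_of_tendsto' ((hd i (by omega)).add (hd (i + 2) hi)) h2 h1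

/-- the growth rates are at most multiples of the first one -/
theorem rate_linear {N : ℕ} {F : Multiset ℤ → ℝ} (hF : Lor N F) {d : ℕ → ℝ}
    (hd : ∀ p ≤ N, Tendsto (fun m : ℕ => LD F N p m / m) atTop (𝓝 (d p))) :
    ∀ p ≤ N, d p ≤ p * d 1 := by
  have h0 : d 0 = 0 := hF.rate_zero (hd 0 (Nat.zero_le _))
  -- the increments are at most the first one
  have hinc : ∀ p, p + 1 ≤ N → d (p + 1) - d p ≤ d 1 := by
    intro p
    induction p with
    | zero => intro _; rw [h0]; simp
    | succ p ih =>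
      intro hp
      have h1 := rate_concave hF hd (i := p) (by omega)
      have h2 := ih (by omega)
      linarith
  intro p
  induction p with
  | zero => intro _; rw [h0]; simp
  | succ p ih =>
    intro hp
    have h1 := ih (by omega)
    have h2 := hinc p hp
    push_cast
    linarith

/-- the maximum does not decrease -/
theorem chain {n j : ℕ} (hj : j ≤ n) {F : ℕ → Multiset ℤ → ℝ}
    (hL : ∀ i ≤ j, Lor (n - i) (F i))
    (hmix : ∀ i < j, ∀ (ω : Multiset ℤ) (a b c : ℤ), ω.card + 1 = n - (i + 1) →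
      F i (a ::ₘ b ::ₘ ω) * F (i + 1) (c ::ₘ ω) ≤
        2 * (F i (a ::ₘ c ::ₘ ω) * F (i + 1) (b ::ₘ ω) +
          F i (b ::ₘ c ::ₘ ω) * F (i + 1) (a ::ₘ ω)))
    {d r : ℕ → ℝ} (hd : ∀ p ≤ n, Tendsto (fun m : ℕ => LD (F 0) n p m / m) atTop (𝓝 (d p)))
    (hr : ∀ p ≤ n - j, Tendsto (fun m : ℕ => LD (F j) (n - j) p m / m) atTop (𝓝 (r p))) :
    ∀ p ≤ n, ∃ q ≤ n - j, d p ≤ r q := by
  classical
  have hex : ∀ i p, ∃ d : ℝ, i ≤ j → p ≤ n - i →
      Tendsto (fun m : ℕ => LD (F i) (n - i) p m / m) atTop (𝓝 d) := by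
    intro i p
    by_cases h : i ≤ j ∧ p ≤ n - i
    · obtain ⟨d, hd⟩ := (hL i h.1).exists_rate h.2
      exact ⟨d, fun _ _ => hd⟩
    · exact ⟨0, fun h1 h2 => absurd ⟨h1, h2⟩ h⟩
  choose D hD using hex
  have hsub : ∀ i < j, n - i = n - (i + 1) + 1 := fun i hi => by omega
  intro p hp
  have key : ∀ i ≤ j, ∃ q ≤ n - i, d p ≤ D i q := by
    intro i
    induction i with
    | zero =>
      intro _
      exact ⟨p, hp, (tendsto_nhds_unique (hd p hp) (hD 0 p (Nat.zero_le _) (by omega))).le⟩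
    | succ i ih =>
      intro hi
      obtain ⟨q, hq, hmax⟩ := ih (by omega)
      have h1 := hL i (by omega)
      have h2 := hL (i + 1) hi
      have h3 := hsub i (by omega)
      have hDi := fun p hp => hD i p (by omega) hp
      rw [h3] at h1 hq hDi
      obtain ⟨q', hq', hle⟩ := compare h1 h2 (hmix i (by omega)) (d := D i) (r := D (i + 1))
        hDi (fun p hp => hD (i + 1) p hi hp) hq
      exact ⟨q', hq', hmax.trans hle⟩
  obtain ⟨q, hq, hle⟩ := key j le_rfl
  refine ⟨q, hq, hle.trans (le_of_eq ?_)⟩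
  exact tendsto_nhds_unique (hD j q le_rfl hq) (hr q hq)

end Pool.Agent.T2H06.DYG
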