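import Mathlib
import Pool.Agent.T2H06.DYN.Lim

/-!
Subadditive functions on `ℤ^r`: the extension to `ℝ^r`.
-/

set_option autoImplicit false
set_option linter.unusedVariables false
set_option linter.unusedSectionVars false

open Filter Topology
open Pool.Agent.T2H06.DYN (ulim ulim_spec)

namespace Pool.Agent.T2H06.DYG

variable {r : ℕ}

/-- subadditive, homogeneous and nonnegative functions -/
structure SubL (r : ℕ) (c : (Fin r → ℤ) → ℝ) : Prop where
  zero : c 0 = 0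
  add : ∀ a b, c (a + b) ≤ c a + c b
  smul : ∀ (k : ℕ) a, c (k • a) = k * c a
  nonneg : ∀ a, 0 ≤ c a

/-- the inclusion of the lattice -/
def cst (a : Fin r → ℤ) : Fin r → ℝ := fun i => a i

theorem cst_add (a b : Fin r → ℤ) : cst (a + b) = cst a + cst b := by
  funext i
  simp [cst]

theorem cst_sub (a b : Fin r → ℤ) : cst (a - b) = cst a - cst b := by
  funext i
  simp [cst]

theorem cst_zero : cst (0 : Fin r → ℤ) = 0 := by
  funext i
  simp [cst]

theorem cst_nsmul (k : ℕ) (a : Fin r → ℤ) : cst (k • a) = (k : ℝ) • cst a := by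
  funext i
  simp [cst]

theorem cst_inj {a b : Fin r → ℤ} (h : cst a = cst b) : a = b := by
  funext i
  have := congrFun h i
  unfold cst at this
  exact_mod_cast this

/-- the integral part -/
noncomputable def fl (x : Fin r → ℝ) : Fin r → ℤ := fun i => ⌊x i⌋

theorem norm_fl (x : Fin r → ℝ) : ‖cst (fl x) - x‖ ≤ 1 := by
  refine (pi_norm_le_iff_of_nonneg zero_le_one).2 fun i => ?_
  have h1 := Int.floor_le (x i)
  have h2 := Int.lt_floor_add_one (x i)
  rw [Pi.sub_apply, Real.norm_eq_abs, abs_le]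
  unfold cst fl
  constructor <;> linarith

theorem fl_cst (a : Fin r → ℤ) : fl (cst a) = a := by
  funext i
  simp [fl, cst]

section

variable {c : (Fin r → ℤ) → ℝ}

theorem SubL.sum (hc : SubL r c) {ι : Type} (s : Finset ι) (f : ι → Fin r → ℤ) :
    c (∑ i ∈ s, f i) ≤ ∑ i ∈ s, c (f i) := by
  classical
  induction s using Finset.induction_on with
  | empty => rw [Finset.sum_empty, Finset.sum_empty, hc.zero]
  | insert a s ha ih =>
    rw [Finset.sum_insert ha, Finset.sum_insert ha]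
    exact (hc.add _ _).trans (by linarith)

theorem SubL.bound (hc : SubL r c) : ∃ L : ℝ, 0 < L ∧ ∀ a, c a ≤ L * ‖cst a‖ := by
  classical
  obtain ⟨l, hl⟩ : ∃ l : Fin r → ℝ, l = fun i => c (Pi.single i 1) + c (Pi.single i (-1)) :=
    ⟨_, rfl⟩
  have hl0 : ∀ i, 0 ≤ l i := fun i => by
    rw [hl]
    exact add_nonneg (hc.nonneg _) (hc.nonneg _)
  have hone : ∀ (i : Fin r) (z : ℤ), c (Pi.single i z) ≤ l i * |(z : ℝ)| := by
    intro i z
    rcases le_total 0 z with hz | hz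
    · obtain ⟨k, rfl⟩ := Int.eq_ofNat_of_zero_le hz
      have e : (Pi.single i (k : ℤ) : Fin r → ℤ) = k • Pi.single i 1 := by
        rw [← Pi.single_smul]
        simp
      rw [e, hc.smul]
      have h1 : c (Pi.single i 1) ≤ l i := by
        rw [hl]
        have := hc.nonneg (Pi.single i (-1))
        simp only
        linarith
      push_cast
      rw [abs_of_nonneg (Nat.cast_nonneg _), mul_comm]
      exact mul_le_mul_of_nonneg_right h1 (Nat.cast_nonneg _)
    · obtain ⟨k, hk⟩ := Int.eq_ofNat_of_zero_le (neg_nonneg.2 hz)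
      have hz' : z = -(k : ℤ) := by omega
      subst hz'
      have e : (Pi.single i (-(k : ℤ)) : Fin r → ℤ) = k • Pi.single i (-1) := by
        rw [← Pi.single_smul]
        simp
      rw [e, hc.smul]
      have h1 : c (Pi.single i (-1)) ≤ l i := by
        rw [hl]
        have := hc.nonneg (Pi.single i 1)
        simp only
        linarith
      push_cast
      rw [abs_neg, abs_of_nonneg (Nat.cast_nonneg _), mul_comm]
      exact mul_le_mul_of_nonneg_right h1 (Nat.cast_nonneg _)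
  refine ⟨∑ i, l i + 1, by
    have := Finset.sum_nonneg fun i (_ : i ∈ Finset.univ) => hl0 i
    linarith, fun a => ?_⟩
  have h1 := hc.sum Finset.univ fun i => Pi.single i (a i)
  rw [Finset.univ_sum_single] at h1
  refine h1.trans ?_
  have h2 : ∀ i ∈ Finset.univ, c (Pi.single i (a i)) ≤ l i * ‖cst a‖ := by
    intro i _
    refine (hone i (a i)).trans (mul_le_mul_of_nonneg_left ?_ (hl0 i))
    have h3 := norm_le_pi_norm (cst a) i
    rwa [Real.norm_eq_abs] at h3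
  refine (Finset.sum_le_sum h2).trans ?_
  rw [← Finset.sum_mul]
  exact mul_le_mul_of_nonneg_right (by linarith) (norm_nonneg _)

/-- the extension to the real vector space -/
noncomputable def CC (c : (Fin r → ℤ) → ℝ) (x : Fin r → ℝ) : ℝ :=
  ulim fun m : ℕ => c (fl ((m : ℝ) • x)) / m

theorem CC_tendsto (hc : SubL r c) (x : Fin r → ℝ) :
    Tendsto (fun m : ℕ => c (fl ((m : ℝ) • x)) / m) (hyperfilter ℕ : Filter ℕ) (𝓝 (CC c x)) := by
  obtain ⟨L, hL0, hL⟩ := hc.bound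
  refine ulim_spec (c := 0) (C := L * (‖x‖ + 1)) (fun m => div_nonneg (hc.nonneg _)
    (Nat.cast_nonneg _)) fun m => ?_
  rcases Nat.eq_zero_or_pos m with rfl | hm
  · simp only [CharP.cast_eq_zero, div_zero]
    positivity
  have hm' : (1 : ℝ) ≤ m := by exact_mod_cast hm
  rw [div_le_iff₀ (by linarith)]
  refine (hL _).trans ?_
  have h1 : ‖cst (fl ((m : ℝ) • x))‖ ≤ m * ‖x‖ + 1 := by
    have h2 := norm_fl ((m : ℝ) • x)
    have h3 : ‖cst (fl ((m : ℝ) • x))‖ ≤ ‖cst (fl ((m : ℝ) • x)) - (m : ℝ) • x‖ +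
        ‖(m : ℝ) • x‖ := by
      have := norm_add_le (cst (fl ((m : ℝ) • x)) - (m : ℝ) • x) ((m : ℝ) • x)
      rwa [sub_add_cancel] at this
    rw [norm_smul, Real.norm_eq_abs, abs_of_nonneg (by linarith : (0 : ℝ) ≤ m)] at h3
    linarith
  rw [mul_assoc]
  refine mul_le_mul_of_nonneg_left ?_ hL0.le
  nlinarith [norm_nonneg x]

theorem CC_nonneg (hc : SubL r c) (x : Fin r → ℝ) : 0 ≤ CC c x :=
  ge_of_tendsto' (CC_tendsto hc x) fun m => div_nonneg (hc.nonneg _) (Nat.cast_nonneg _)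

theorem tendsto_cd (x : ℝ) :
    Tendsto (fun m : ℕ => x / (m : ℝ)) (hyperfilter ℕ : Filter ℕ) (𝓝 0) :=
  (tendsto_const_div_atTop_nhds_zero_nat x).mono_left Nat.hyperfilter_le_atTop

theorem ev_ge (k : ℕ) : ∀ᶠ m in (hyperfilter ℕ : Filter ℕ), k ≤ m :=
  (Nat.hyperfilter_le_atTop : (hyperfilter ℕ : Filter ℕ) ≤ atTop) (eventually_ge_atTop k)

theorem CC_cst (hc : SubL r c) (a : Fin r → ℤ) : CC c (cst a) = c a := by
  refine tendsto_nhds_unique (CC_tendsto hc (cst a)) ?_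
  refine Tendsto.congr' ?_ (tendsto_const_nhds (x := c a))
  filter_upwards [ev_ge 1] with m hm
  rw [← cst_nsmul, fl_cst, hc.smul]
  have hm' : (m : ℝ) ≠ 0 := by positivity
  field_simp

theorem CC_add (hc : SubL r c) (x y : Fin r → ℝ) : CC c (x + y) ≤ CC c x + CC c y := by
  obtain ⟨L, hL0, hL⟩ := hc.bound
  have h1 := ((CC_tendsto hc x).add (CC_tendsto hc y)).add (tendsto_cd (L * 3))
  rw [add_zero] at h1
  refine le_of_tendsto_of_tendsto' (CC_tendsto hc (x + y)) h1 fun m => ?_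
  rw [← add_div, ← add_div]
  refine div_le_div_of_nonneg_right ?_ (Nat.cast_nonneg _)
  obtain ⟨e, he⟩ : ∃ e, e = fl ((m : ℝ) • (x + y)) - fl ((m : ℝ) • x) - fl ((m : ℝ) • y) :=
    ⟨_, rfl⟩
  have h2 : fl ((m : ℝ) • (x + y)) = fl ((m : ℝ) • x) + fl ((m : ℝ) • y) + e := by
    rw [he]; abel
  rw [h2]
  have h3 := hc.add (fl ((m : ℝ) • x) + fl ((m : ℝ) • y)) e
  have h4 := hc.add (fl ((m : ℝ) • x)) (fl ((m : ℝ) • y))
  have h5 : ‖cst e‖ ≤ 3 := by
    have e1 : cst e = (cst (fl ((m : ℝ) • (x + y))) - (m : ℝ) • (x + y)) -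
        (cst (fl ((m : ℝ) • x)) - (m : ℝ) • x) - (cst (fl ((m : ℝ) • y)) - (m : ℝ) • y) := by
      rw [he, cst_sub, cst_sub, smul_add]; abel
    rw [e1]
    have h6 := norm_sub_le ((cst (fl ((m : ℝ) • (x + y))) - (m : ℝ) • (x + y)) -
        (cst (fl ((m : ℝ) • x)) - (m : ℝ) • x)) (cst (fl ((m : ℝ) • y)) - (m : ℝ) • y)
    have h7 := norm_sub_le (cst (fl ((m : ℝ) • (x + y))) - (m : ℝ) • (x + y))
        (cst (fl ((m : ℝ) • x)) - (m : ℝ) • x)
    have h8 := norm_fl ((m : ℝ) • x)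
    have h9 := norm_fl ((m : ℝ) • y)
    have h10 := norm_fl ((m : ℝ) • (x + y))
    linarith
  have h6 := hL e
  have h7 := mul_le_mul_of_nonneg_left h5 hL0.le
  linarith

theorem CC_le (hc : SubL r c) {L : ℝ} (hL0 : 0 < L) (hL : ∀ a, c a ≤ L * ‖cst a‖)
    (x : Fin r → ℝ) : CC c x ≤ L * ‖x‖ := by
  have h1 := (tendsto_const_nhds (x := L * ‖x‖) (f := (hyperfilter ℕ : Filter ℕ))).add
    (tendsto_cd L)
  rw [add_zero] at h1
  refine le_of_tendsto_of_tendsto (CC_tendsto hc x) h1 ?_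
  filter_upwards [ev_ge 1] with m hm
  have hm' : (1 : ℝ) ≤ m := by exact_mod_cast hm
  rw [div_le_iff₀ (by linarith), add_mul, div_mul_cancel₀ _ (by positivity)]
  refine (hL _).trans ?_
  have h1 : ‖cst (fl ((m : ℝ) • x))‖ ≤ m * ‖x‖ + 1 := by
    have h2 := norm_fl ((m : ℝ) • x)
    have h3 : ‖cst (fl ((m : ℝ) • x))‖ ≤ ‖cst (fl ((m : ℝ) • x)) - (m : ℝ) • x‖ +
        ‖(m : ℝ) • x‖ := by
      have := norm_add_le (cst (fl ((m : ℝ) • x)) - (m : ℝ) • x) ((m : ℝ) • x)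
      rwa [sub_add_cancel] at this
    rw [norm_smul, Real.norm_eq_abs, abs_of_nonneg (by linarith : (0 : ℝ) ≤ m)] at h3
    linarith
  nlinarith

theorem CC_lip (hc : SubL r c) {L : ℝ} (hL0 : 0 < L) (hL : ∀ a, c a ≤ L * ‖cst a‖)
    (x y : Fin r → ℝ) : |CC c x - CC c y| ≤ L * ‖x - y‖ := by
  have h1 := CC_add hc (x - y) y
  have h2 := CC_add hc (y - x) x
  rw [sub_add_cancel] at h1 h2
  have h3 := CC_le hc hL0 hL (x - y)
  have h4 := CC_le hc hL0 hL (y - x)
  rw [norm_sub_rev] at h4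
  rw [abs_le]
  constructor <;> linarith

theorem CC_nsmul (hc : SubL r c) (k : ℕ) (x : Fin r → ℝ) :
    CC c ((k : ℝ) • x) = k * CC c x := by
  obtain ⟨L, hL0, hL⟩ := hc.bound
  have hlip : ∀ a b : Fin r → ℤ, |c a - c b| ≤ L * ‖cst a - cst b‖ := by
    intro a b
    have h1 := hc.add (a - b) b
    have h2 := hc.add (b - a) a
    rw [sub_add_cancel] at h1 h2
    have h3 := hL (a - b)
    have h4 := hL (b - a)
    rw [cst_sub] at h3 h4
    rw [norm_sub_rev] at h4
    rw [abs_le]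
    constructor <;> linarith
  have h1 := ((CC_tendsto hc x).const_mul (k : ℝ))
  have h2 := (CC_tendsto hc ((k : ℝ) • x)).sub h1
  have h3 : Tendsto (fun m : ℕ => c (fl ((m : ℝ) • (k : ℝ) • x)) / m -
      k * (c (fl ((m : ℝ) • x)) / m)) (hyperfilter ℕ : Filter ℕ) (𝓝 0) := by
    refine squeeze_zero_norm (fun m => ?_) (tendsto_cd (L * (k + 1)))
    rw [← mul_div_assoc, ← sub_div, Real.norm_eq_abs, abs_div, Nat.abs_cast]
    refine div_le_div_of_nonneg_right ?_ (Nat.cast_nonneg _)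
    rw [← hc.smul]
    refine (hlip _ _).trans (mul_le_mul_of_nonneg_left ?_ hL0.le)
    rw [cst_nsmul]
    have e1 : cst (fl ((m : ℝ) • (k : ℝ) • x)) - (k : ℝ) • cst (fl ((m : ℝ) • x)) =
        (cst (fl ((m : ℝ) • (k : ℝ) • x)) - (m : ℝ) • (k : ℝ) • x) -
          (k : ℝ) • (cst (fl ((m : ℝ) • x)) - (m : ℝ) • x) := by
      rw [smul_sub, smul_comm (k : ℝ) (m : ℝ) x]; abel
    rw [e1]
    have h6 := norm_sub_le (cst (fl ((m : ℝ) • (k : ℝ) • x)) - (m : ℝ) • (k : ℝ) • x)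
      ((k : ℝ) • (cst (fl ((m : ℝ) • x)) - (m : ℝ) • x))
    have h7 := norm_fl ((m : ℝ) • (k : ℝ) • x)
    have h8 := norm_fl ((m : ℝ) • x)
    rw [norm_smul, Real.norm_eq_abs, Nat.abs_cast] at h6
    have h9 := mul_le_mul_of_nonneg_left h8 (Nat.cast_nonneg k)
    linarith
  have h4 := tendsto_nhds_unique h2 h3
  linarith

theorem CC_inv (hc : SubL r c) {k : ℕ} (hk : 1 ≤ k) (x : Fin r → ℝ) :
    CC c ((k : ℝ)⁻¹ • x) = (k : ℝ)⁻¹ * CC c x := by
  have hk' : (k : ℝ) ≠ 0 := by positivity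
  have h1 := CC_nsmul hc k ((k : ℝ)⁻¹ • x)
  rw [smul_smul, mul_inv_cancel₀ hk', one_smul] at h1
  rw [h1]
  field_simp

end

end Pool.Agent.T2H06.DYG
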