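import Pool.Agent.T2H06.DYG.ConvA

/-!
Subadditive functions on `ℤ^r` with the exchange property have small values if the rank is large.
-/

set_option autoImplicit false
set_option linter.unusedVariables false
set_option linter.unusedSectionVars false

open Filter Topology
open Pool.Agent.T2H06.DYN (ulim ulim_spec)

namespace Pool.Agent.T2H06.DYG

variable {r : ℕ} {c : (Fin r → ℤ) → ℝ}

/-- Lemma B: few functionals have a common nonpositive value. -/
theorem exists_nonpos (hr : 1 ≤ r) (T : Finset ((Fin r → ℝ) →L[ℝ] ℝ)) (hT : T.card ≤ r) :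
    ∃ x : Fin r → ℝ, x ≠ 0 ∧ ∀ q ∈ T, q x ≤ 0 := by
  classical
  rcases T.eq_empty_or_nonempty with rfl | ⟨q₀, hq₀⟩
  · refine ⟨fun _ => 1, fun h => ?_, fun q hq => absurd hq (Finset.notMem_empty q)⟩
    have := congrFun h ⟨0, hr⟩
    simp at this
  obtain ⟨f, hf⟩ : ∃ f : (Fin r → ℝ) →ₗ[ℝ] (↥(T.erase q₀) → ℝ),
      ∀ x q, f x q = (q : (Fin r → ℝ) →L[ℝ] ℝ) x :=
    ⟨LinearMap.pi fun q => ((q : (Fin r → ℝ) →L[ℝ] ℝ) : (Fin r → ℝ) →ₗ[ℝ] ℝ), fun x q => rfl⟩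
  have hker : LinearMap.ker f ≠ ⊥ := by
    apply LinearMap.ker_ne_bot_of_finrank_lt
    rw [Module.finrank_fintype_fun_eq_card, Module.finrank_fintype_fun_eq_card, Fintype.card_fin,
      Fintype.card_coe, Finset.card_erase_of_mem hq₀]
    have := Finset.card_pos.2 ⟨q₀, hq₀⟩
    omega
  obtain ⟨x, hx, hx0⟩ := (Submodule.ne_bot_iff _).1 hker
  have hx' : ∀ q ∈ T, q ≠ q₀ → q x = 0 := by
    intro q hq hqq
    have h1 : f x = 0 := hx
    have h2 := congrFun h1 ⟨q, Finset.mem_erase.2 ⟨hqq, hq⟩⟩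
    rw [hf] at h2
    exact h2
  rcases le_total (q₀ x) 0 with h | h
  · refine ⟨x, hx0, fun q hq => ?_⟩
    by_cases hqq : q = q₀
    · rw [hqq]; exact h
    · exact (hx' q hq hqq).le
  · refine ⟨-x, neg_ne_zero.2 hx0, fun q hq => ?_⟩
    rw [map_neg]
    by_cases hqq : q = q₀
    · rw [hqq]; linarith
    · rw [hx' q hq hqq, neg_zero]

/-- Euler's formula -/
theorem euler (hc : SubL r c) {v : Fin r → ℝ} {p : (Fin r → ℝ) →L[ℝ] ℝ}
    (h : HasFDerivAt (CC c) p v) : p v = CC c v := by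
  have h1 : Tendsto (fun k : ℕ => ((k + 1 : ℕ) : ℝ)⁻¹) atTop (𝓝[≠] 0) := by
    refine tendsto_nhdsWithin_iff.2 ⟨?_, Eventually.of_forall fun k => ?_⟩
    · exact (tendsto_inv_atTop_nhds_zero_nat (𝕜 := ℝ)).comp (tendsto_add_atTop_nat 1)
    · exact inv_ne_zero (by positivity)
  have h2 : HasDerivAt (fun t : ℝ => CC c (v + t • v)) (p v) 0 := by
    have h3 : HasFDerivAt (CC c) p (v + (0 : ℝ) • v) := by rwa [zero_smul, add_zero]
    have h4 : HasDerivAt (fun t : ℝ => v + t • v) v 0 := by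
      have h5 := ((hasDerivAt_id (0 : ℝ)).smul_const v).const_add v
      rw [one_smul] at h5
      exact h5
    exact h3.comp_hasDerivAt 0 h4
  have h3 := (hasDerivAt_iff_tendsto_slope.1 h2).comp h1
  refine tendsto_nhds_unique h3 ?_
  refine Tendsto.congr (fun k => ?_) tendsto_const_nhds
  simp only [Function.comp_apply, slope_def_field, zero_smul, add_zero, sub_zero]
  have hk : ((k + 1 : ℕ) : ℝ) ≠ 0 := by positivity
  have e : v + ((k + 1 : ℕ) : ℝ)⁻¹ • v = ((k + 1 : ℕ) : ℝ)⁻¹ • (((k + 2 : ℕ) : ℝ) • v) := by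
    rw [smul_smul]
    nth_rewrite 1 [← one_smul ℝ v]
    rw [← add_smul]
    congr 1
    field_simp
    push_cast
    ring
  rw [e, CC_inv hc (by omega), CC_nsmul hc]
  field_simp
  push_cast
  ring

/-- Lemma A: there are many derivatives. -/
theorem exists_deriv (hc : SubL r c) (hr : 1 ≤ r) (hpos : ∀ x : Fin r → ℝ, x ≠ 0 → 0 < CC c x)
    (T : Finset ((Fin r → ℝ) →L[ℝ] ℝ)) (hT : T.card ≤ r) :
    ∃ p v, HasFDerivAt (CC c) p v ∧ p ∉ T := by
  obtain ⟨x, hx0, hx⟩ := exists_nonpos hr T hT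
  obtain ⟨L, hL0, hL⟩ := hc.bound
  have hlip : LipschitzWith ⟨L, hL0.le⟩ (CC c) :=
    LipschitzWith.of_dist_le_mul fun a b => by
      rw [Real.dist_eq, dist_eq_norm]
      exact CC_lip hc hL0 hL a b
  have hdense : Dense {v | DifferentiableAt ℝ (CC c) v} :=
    MeasureTheory.Measure.dense_of_ae
      (hlip.ae_differentiableAt (μ := MeasureTheory.volume))
  obtain ⟨U, hU⟩ : ∃ U : Set (Fin r → ℝ), U = ⋂ q ∈ T, {y | q y < CC c y} := ⟨_, rfl⟩
  have hUo : IsOpen U := by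
    rw [hU]
    exact isOpen_biInter_finset fun q _ => isOpen_lt q.continuous hlip.continuous
  have hxU : x ∈ U := by
    rw [hU, Set.mem_iInter₂]
    intro q hq
    exact (hx q hq).trans_lt (hpos x hx0)
  obtain ⟨v, hvU, hv⟩ := hdense.exists_mem_open hUo ⟨x, hxU⟩
  refine ⟨fderiv ℝ (CC c) v, v, DifferentiableAt.hasFDerivAt ?_, fun hmem => ?_⟩
  · first | exact hv | exact hvU
  · have hvU' : v ∈ U := by first | exact hvU | exact hv
    rw [hU, Set.mem_iInter₂] at hvU'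
    have h1 := hvU' _ hmem
    have h2 : HasFDerivAt (CC c) (fderiv ℝ (CC c) v) v :=
      DifferentiableAt.hasFDerivAt (by first | exact hv | exact hvU)
    have h3 := euler hc h2
    change fderiv ℝ (CC c) v v < CC c v at h1
    rw [h3] at h1
    exact lt_irrefl _ h1

theorem exists_many (hc : SubL r c) (hr : 1 ≤ r) (hpos : ∀ x : Fin r → ℝ, x ≠ 0 → 0 < CC c x)
    (k : ℕ) (hk : k ≤ r + 1) :
    ∃ T : Finset ((Fin r → ℝ) →L[ℝ] ℝ), T.card = k ∧ ∀ p ∈ T, ∃ v, HasFDerivAt (CC c) p v := by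
  classical
  induction k with
  | zero => exact ⟨∅, rfl, fun p hp => absurd hp (Finset.notMem_empty p)⟩
  | succ k ih =>
    obtain ⟨T, hT, h⟩ := ih (by omega)
    obtain ⟨p, v, hp, hpT⟩ := exists_deriv hc hr hpos T (by omega)
    refine ⟨insert p T, by rw [Finset.card_insert_of_notMem hpT, hT], fun q hq => ?_⟩
    rcases Finset.mem_insert.1 hq with rfl | hq
    · exact ⟨v, hp⟩
    · exact h q hq

/-- the exchange property -/
def Exch (N : ℕ) (c : (Fin r → ℤ) → ℝ) : Prop :=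
  ∀ s : Fin (N + 2) → Fin r → ℤ, ∃ b : Fin (N + 2) → ℝ, ∀ (t : Fin r → ℤ) (i : Fin (N + 2)),
    ∃ j, j ≠ i ∧ b i + c (s i - t) ≤ b j + c (s j - t)

/-- the exchange property for real vectors -/
theorem exch_real {N : ℕ} (hc : SubL r c) (hex : Exch N c) (v : Fin (N + 2) → Fin r → ℝ) {ε : ℝ}
    (hε : 0 < ε) : ∃ α : Fin (N + 2) → ℝ, ∀ (τ : Fin r → ℝ) (i : Fin (N + 2)),
      ∃ j, j ≠ i ∧ α i + CC c (v i - τ) ≤ α j + CC c (v j - τ) + ε := by
  obtain ⟨L, hL0, hL⟩ := hc.bound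
  obtain ⟨m, hm⟩ : ∃ m : ℕ, 4 * L / ε < m := exists_nat_gt _
  have hm0 : (0 : ℝ) < m := lt_of_le_of_lt (by positivity) hm
  have hm1 : 1 ≤ m := by exact_mod_cast hm0
  rw [div_lt_iff₀ hε] at hm
  obtain ⟨b, hb⟩ := hex fun i => fl ((m : ℝ) • v i)
  have happ : ∀ (τ : Fin r → ℝ) (i : Fin (N + 2)),
      |c (fl ((m : ℝ) • v i) - fl ((m : ℝ) • τ)) / m - CC c (v i - τ)| ≤ 2 * L / m := by
    intro τ i
    have e1 : c (fl ((m : ℝ) • v i) - fl ((m : ℝ) • τ)) / m =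
        CC c ((m : ℝ)⁻¹ • cst (fl ((m : ℝ) • v i) - fl ((m : ℝ) • τ))) := by
      rw [CC_inv hc hm1, CC_cst hc, div_eq_inv_mul]
    rw [e1]
    refine (CC_lip hc hL0 hL _ _).trans ?_
    rw [mul_comm 2 L, mul_div_assoc]
    refine mul_le_mul_of_nonneg_left ?_ hL0.le
    have e2 : (m : ℝ)⁻¹ • cst (fl ((m : ℝ) • v i) - fl ((m : ℝ) • τ)) - (v i - τ) =
        (m : ℝ)⁻¹ • ((cst (fl ((m : ℝ) • v i)) - (m : ℝ) • v i) -
          (cst (fl ((m : ℝ) • τ)) - (m : ℝ) • τ)) := by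
      rw [cst_sub]
      simp only [smul_sub, smul_smul, inv_mul_cancel₀ hm0.ne', one_smul]
      abel
    rw [e2, norm_smul, norm_inv, Real.norm_eq_abs, Nat.abs_cast, div_eq_inv_mul]
    refine mul_le_mul_of_nonneg_left ?_ (by positivity)
    have h1 := norm_sub_le (cst (fl ((m : ℝ) • v i)) - (m : ℝ) • v i)
      (cst (fl ((m : ℝ) • τ)) - (m : ℝ) • τ)
    have h2 := norm_fl ((m : ℝ) • v i)
    have h3 := norm_fl ((m : ℝ) • τ)
    linarith
  refine ⟨fun i => b i / m, fun τ i => ?_⟩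
  obtain ⟨j, hj, hle⟩ := hb (fl ((m : ℝ) • τ)) i
  refine ⟨j, hj, ?_⟩
  have h1 := (abs_le.1 (happ τ i)).1
  have h2 := (abs_le.1 (happ τ j)).2
  have h3 : b i / m + c (fl ((m : ℝ) • v i) - fl ((m : ℝ) • τ)) / m ≤
      b j / m + c (fl ((m : ℝ) • v j) - fl ((m : ℝ) • τ)) / m := by
    rw [← add_div, ← add_div]
    exact div_le_div_of_nonneg_right hle hm0.le
  have h4 : 2 * L / m + 2 * L / m ≤ ε := by
    rw [← add_div, div_le_iff₀ hm0]
    nlinarith
  linarith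

end Pool.Agent.T2H06.DYG
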