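import Pool.Agent.T2H06.DYG.ConvB

/-!
Subadditive functions on `ℤ^r` with the exchange property have small values if the rank is large.
-/

set_option autoImplicit false
set_option linter.unusedVariables false
set_option linter.unusedSectionVars false

open Filter Topology
open Pool.Agent.T2H06.DYN (ulim ulim_spec)

namespace Pool.Agent.T2H06.DYG

variable {r : ℕ} {c : (Fin r → ℤ) → ℝ}

/-- affine functions with different slopes, two of them being almost maximal everywhere -/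
theorem pigeon {n : ℕ} {q α : Fin (n + 2) → ℝ} {Δ η κ : ℝ}
    (hΔ : ∀ i j, i ≠ j → Δ ≤ |q i - q j|) (hη : 0 < η)
    (hκ : κ * ((n + 2) * (n + 2)) < η * Δ)
    (h : ∀ x, 0 ≤ x → x ≤ η → ∀ i, ∃ j, j ≠ i ∧ α i - x * q i ≤ α j - x * q j + κ) : False := by
  classical
  obtain ⟨M, hM⟩ : ∃ M : ℕ, M = (n + 2) * (n + 2) := ⟨_, rfl⟩
  have hM0 : (0 : ℝ) < M := by
    rw [hM]
    positivity
  have hMr : ((n : ℝ) + 2) * (n + 2) = M := by
    rw [hM]
    push_cast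
    ring
  rw [hMr] at hκ
  obtain ⟨x, hx⟩ : ∃ x : ℕ → ℝ, x = fun k : ℕ => η * (k : ℝ) / M := ⟨_, rfl⟩
  have hx0 : ∀ k : Fin (M + 1), 0 ≤ x k := fun k => by
    rw [hx]
    positivity
  have hx1 : ∀ k : Fin (M + 1), x k ≤ η := fun k => by
    rw [hx]
    simp only
    rw [div_le_iff₀ hM0]
    refine mul_le_mul_of_nonneg_left ?_ hη.le
    exact_mod_cast Nat.lt_succ_iff.1 k.2
  have hk : ∀ k : Fin (M + 1), ∃ ij : Fin (n + 2) × Fin (n + 2), ij.2 ≠ ij.1 ∧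
      0 ≤ (α ij.1 - x k * q ij.1) - (α ij.2 - x k * q ij.2) ∧
      (α ij.1 - x k * q ij.1) - (α ij.2 - x k * q ij.2) ≤ κ := by
    intro k
    obtain ⟨i, -, hi⟩ := Finset.exists_max_image Finset.univ (fun i => α i - x k * q i)
      ⟨0, Finset.mem_univ _⟩
    obtain ⟨j, hj, hle⟩ := h (x k) (hx0 k) (hx1 k) i
    exact ⟨(i, j), hj, by have := hi j (Finset.mem_univ j); linarith, by simp only; linarith⟩
  choose ij hij1 hij2 hij3 using hk
  obtain ⟨k, k', hne, heq⟩ := Fintype.exists_ne_map_eq_of_card_lt ij (by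
    rw [Fintype.card_prod, Fintype.card_fin, Fintype.card_fin, hM]
    omega)
  have h1 := hij2 k
  have h2 := hij3 k
  have h3 := hij2 k'
  have h4 := hij3 k'
  rw [← heq] at h3 h4
  obtain ⟨i, hi⟩ : ∃ i, i = (ij k).1 := ⟨_, rfl⟩
  obtain ⟨j, hj⟩ : ∃ j, j = (ij k).2 := ⟨_, rfl⟩
  have hji : j ≠ i := by rw [hi, hj]; exact hij1 k
  rw [← hi, ← hj] at h1 h2 h3 h4
  have h5 : |(x k - x k') * (q i - q j)| ≤ κ := by
    rw [abs_le]
    constructor <;> linarith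
  rw [abs_mul] at h5
  have h6 := hΔ i j hji.symm
  have h7 : η / M ≤ |x k - x k'| := by
    have e : x k - x k' = η / M * ((k : ℕ) - (k' : ℕ) : ℝ) := by
      rw [hx]
      simp only
      ring
    rw [e, abs_mul, abs_of_nonneg (by positivity : 0 ≤ η / M)]
    have h8 : (1 : ℝ) ≤ |((k : ℕ) : ℝ) - ((k' : ℕ) : ℝ)| := by
      have h9 : ((k : ℕ) : ℤ) - ((k' : ℕ) : ℤ) ≠ 0 := by
        intro h10
        apply hne
        apply Fin.ext
        omega
      have h10 : 1 ≤ |((k : ℕ) : ℤ) - ((k' : ℕ) : ℤ)| := Int.one_le_abs h9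
      exact_mod_cast h10
    have h9 : 0 ≤ η / M := by positivity
    nlinarith
  have hκ0 : 0 ≤ κ := by linarith
  have h8 : η / M * Δ ≤ κ := by
    by_cases hD : 0 ≤ Δ
    · refine le_trans ?_ h5
      exact mul_le_mul h7 h6 hD (abs_nonneg _)
    · push Not at hD
      have : η / M * Δ ≤ 0 := mul_nonpos_of_nonneg_of_nonpos (by positivity) hD.le
      linarith
  rw [div_mul_eq_mul_div, div_le_iff₀ hM0] at h8
  linarith

/-- the extended function is not positive if the rank is large -/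
theorem exists_ray {N : ℕ} (hc : SubL r c) (hex : Exch N c) (hr : N + 1 ≤ r) :
    ∃ x : Fin r → ℝ, x ≠ 0 ∧ CC c x ≤ 0 := by
  classical
  by_contra hcon
  push Not at hcon
  obtain ⟨T, hT, hTd⟩ := exists_many hc (by omega) hcon (N + 2) (by omega)
  obtain ⟨e⟩ : Nonempty (Fin (N + 2) ≃ T) := ⟨(T.equivFinOfCardEq hT).symm⟩
  obtain ⟨P, hP⟩ : ∃ P : Fin (N + 2) → ((Fin r → ℝ) →L[ℝ] ℝ), P = fun i => (e i).1 := ⟨_, rfl⟩
  have hinj : ∀ i j, i ≠ j → P i ≠ P j := by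
    intro i j hij h
    rw [hP] at h
    exact hij (e.injective (Subtype.ext h))
  choose v hv using fun i => hTd (P i) (by rw [hP]; exact (e i).2)
  -- a direction
  obtain ⟨u, hu⟩ := Module.Dual.exists_forall_ne_zero_of_forall_exists (K := ℝ)
    (fun p : {p : Fin (N + 2) × Fin (N + 2) // p.1 ≠ p.2} =>
      ((P p.1.1 - P p.1.2 : (Fin r → ℝ) →L[ℝ] ℝ) : (Fin r → ℝ) →ₗ[ℝ] ℝ)) (by
    rintro ⟨⟨i, j⟩, hij⟩
    by_contra h
    push Not at h
    apply hinj i j hij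
    ext1 x
    have := h x
    simp only [ContinuousLinearMap.coe_coe, sub_apply] at this
    linarith)
  obtain ⟨q, hq⟩ : ∃ q : Fin (N + 2) → ℝ, q = fun i => P i u := ⟨_, rfl⟩
  have hqne : ∀ i j, i ≠ j → q i ≠ q j := by
    intro i j hij h
    apply hu ⟨(i, j), hij⟩
    rw [hq] at h
    simp only [ContinuousLinearMap.coe_coe, sub_apply]
    exact sub_eq_zero.2 h
  obtain ⟨Δ, hΔ0, hΔ⟩ : ∃ Δ : ℝ, 0 < Δ ∧ ∀ i j, i ≠ j → Δ ≤ |q i - q j| := by
    obtain ⟨p, hp, hmin⟩ := Finset.exists_min_image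
      (Finset.univ.filter fun p : Fin (N + 2) × Fin (N + 2) => p.1 ≠ p.2)
      (fun p => |q p.1 - q p.2|) ⟨(0, 1), by
        rw [Finset.mem_filter]
        exact ⟨Finset.mem_univ _, by simp⟩⟩
    rw [Finset.mem_filter] at hp
    refine ⟨|q p.1 - q p.2|, abs_pos.2 (sub_ne_zero.2 (hqne _ _ hp.2)), fun i j hij => ?_⟩
    exact hmin (i, j) (Finset.mem_filter.2 ⟨Finset.mem_univ _, hij⟩)
  obtain ⟨ε', hε'⟩ : ∃ ε' : ℝ, ε' = Δ / (8 * ((N + 2) * (N + 2))) := ⟨_, rfl⟩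
  have hε'0 : 0 < ε' := by rw [hε']; positivity
  -- differentiability
  have hder : ∀ i, HasDerivAt (fun t : ℝ => CC c (v i - t • u)) (-q i) 0 := by
    intro i
    have h3 : HasFDerivAt (CC c) (P i) (v i - (0 : ℝ) • u) := by
      rw [zero_smul, sub_zero]
      exact hv i
    have h4 : HasDerivAt (fun t : ℝ => v i - t • u) (-u) 0 := by
      have h5 := ((hasDerivAt_id (0 : ℝ)).smul_const u).const_sub (v i)
      rw [one_smul] at h5
      exact h5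
    have h6 := h3.comp_hasDerivAt 0 h4
    rw [map_neg] at h6
    rw [hq]
    exact h6
  have hev : ∀ᶠ t in 𝓝 (0 : ℝ), ∀ i, |CC c (v i - t • u) - CC c (v i) + t * q i| ≤ ε' * |t| := by
    rw [eventually_all]
    intro i
    have h1 := (hasDerivAt_iff_isLittleO.1 (hder i)).def hε'0
    filter_upwards [h1] with t ht
    rw [zero_smul, sub_zero, sub_zero, smul_eq_mul, Real.norm_eq_abs, Real.norm_eq_abs] at ht
    refine le_trans (le_of_eq ?_) ht
    congr 1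
    ring
  obtain ⟨η₀, hη₀, hball⟩ := Metric.eventually_nhds_iff.1 hev
  obtain ⟨η, hη⟩ : ∃ η, η = η₀ / 2 := ⟨_, rfl⟩
  have hη0 : 0 < η := by rw [hη]; positivity
  have hest : ∀ t, 0 ≤ t → t ≤ η → ∀ i,
      |CC c (v i - t • u) - CC c (v i) + t * q i| ≤ ε' * η := by
    intro t ht0 ht i
    have h1 := hball (y := t) (by
      rw [Real.dist_eq, sub_zero, abs_of_nonneg ht0]
      linarith) i
    rw [abs_of_nonneg ht0] at h1
    exact h1.trans (mul_le_mul_of_nonneg_left ht hε'0.le)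
  obtain ⟨ε₀, hε₀⟩ : ∃ ε₀ : ℝ, ε₀ = ε' * η := ⟨_, rfl⟩
  have hε₀0 : 0 < ε₀ := by rw [hε₀]; positivity
  obtain ⟨α, hα⟩ := exch_real hc hex v hε₀0
  refine pigeon (n := N) (q := q) (α := fun i => α i + CC c (v i)) (Δ := Δ) (η := η)
    (κ := ε₀ + 2 * (ε' * η)) hΔ hη0 ?_ ?_
  · rw [hε₀, hε']
    have h1 : (0 : ℝ) < ((N : ℝ) + 2) * (N + 2) := by positivity
    have h2 : (Δ / (8 * (((N : ℝ) + 2) * (N + 2))) * η + 2 * (Δ / (8 * (((N : ℝ) + 2) * (N + 2))) * η)) *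
        (((N : ℝ) + 2) * (N + 2)) = 3 / 8 * (η * Δ) := by
      field_simp
      ring
    rw [h2]
    have h3 : 0 < η * Δ := by positivity
    linarith
  · intro x hx0 hx1 i
    obtain ⟨j, hj, hle⟩ := hα (x • u) i
    refine ⟨j, hj, ?_⟩
    have h1 := (abs_le.1 (hest x hx0 hx1 i)).1
    have h2 := (abs_le.1 (hest x hx0 hx1 j)).2
    linarith

/-- **Small values.** -/
theorem small {N : ℕ} (hc : SubL r c) (hex : Exch N c) (hr : N + 1 ≤ r) {ε : ℝ} (hε : 0 < ε) :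
    ∃ a : Fin r → ℤ, a ≠ 0 ∧ c a < ε := by
  obtain ⟨x₀, hx₀, hCx₀⟩ := exists_ray hc hex hr
  obtain ⟨L, hL0, hL⟩ := hc.bound
  -- a long vector
  obtain ⟨l, hl⟩ : ∃ l : ℕ, 2 / ‖x₀‖ < l := exists_nat_gt _
  have hx₀n : 0 < ‖x₀‖ := norm_pos_iff.2 hx₀
  rw [div_lt_iff₀ hx₀n] at hl
  obtain ⟨x, hx⟩ : ∃ x, x = (l : ℝ) • x₀ := ⟨_, rfl⟩
  have hxn : 2 < ‖x‖ := by
    rw [hx, norm_smul, Real.norm_eq_abs, Nat.abs_cast]
    exact hl
  have hCx : CC c x ≤ 0 := by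
    rw [hx, CC_nsmul hc]
    exact mul_nonpos_of_nonneg_of_nonpos (Nat.cast_nonneg _) hCx₀
  -- approximation
  obtain ⟨δ, hδ⟩ : ∃ δ, δ = min 1 (ε / (2 * L)) := ⟨_, rfl⟩
  have hδ0 : 0 < δ := by rw [hδ]; exact lt_min one_pos (by positivity)
  obtain ⟨f, hf⟩ : ∃ f : ℕ → Fin r → ℝ, f = fun k : ℕ => (k : ℝ) • x - cst (fl ((k : ℝ) • x)) :=
    ⟨_, rfl⟩
  have hfb : ∀ k, f k ∈ Metric.closedBall (0 : Fin r → ℝ) 1 := by
    intro k
    rw [mem_closedBall_zero_iff, hf]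
    simp only
    rw [norm_sub_rev]
    exact norm_fl _
  obtain ⟨z, -, φ, hφ, hlim⟩ := (isCompact_closedBall (0 : Fin r → ℝ) 1).tendsto_subseq hfb
  have hcau := hlim.cauchySeq
  rw [Metric.cauchySeq_iff'] at hcau
  obtain ⟨N₀, hN₀⟩ := hcau δ hδ0
  have h1 := hN₀ (N₀ + 1) (by omega)
  obtain ⟨k, hk⟩ : ∃ k, k = φ (N₀ + 1) := ⟨_, rfl⟩
  obtain ⟨k', hk'⟩ : ∃ k', k' = φ N₀ := ⟨_, rfl⟩
  have hkk : k' < k := by
    rw [hk, hk']
    exact hφ (Nat.lt_succ_self _)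
  simp only [Function.comp_apply] at h1
  rw [← hk, ← hk', dist_eq_norm] at h1
  obtain ⟨T, hT⟩ : ∃ T : ℕ, k = k' + T := ⟨k - k', by omega⟩
  have hT1 : 1 ≤ T := by omega
  obtain ⟨a, ha⟩ : ∃ a, a = fl ((k : ℝ) • x) - fl ((k' : ℝ) • x) := ⟨_, rfl⟩
  have h2 : ‖(T : ℝ) • x - cst a‖ < δ := by
    refine lt_of_eq_of_lt ?_ h1
    congr 1
    rw [hf, ha, cst_sub]
    simp only
    rw [hT]
    push_cast
    rw [add_smul]
    abel
  have hδ1 : δ ≤ 1 := by rw [hδ]; exact min_le_left _ _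
  have hδ2 : δ ≤ ε / (2 * L) := by rw [hδ]; exact min_le_right _ _
  refine ⟨a, fun h0 => ?_, ?_⟩
  · rw [h0, cst_zero, sub_zero, norm_smul, Real.norm_eq_abs, Nat.abs_cast] at h2
    have h3 : (1 : ℝ) ≤ T := by exact_mod_cast hT1
    nlinarith
  · have h3 := CC_lip hc hL0 hL (cst a) ((T : ℝ) • x)
    rw [CC_cst hc, CC_nsmul hc, norm_sub_rev] at h3
    have h4 := (abs_le.1 h3).2
    have h5 : (T : ℝ) * CC c x ≤ 0 := mul_nonpos_of_nonneg_of_nonpos (Nat.cast_nonneg _) hCx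
    have h6 : L * ‖(T : ℝ) • x - cst a‖ ≤ L * δ := mul_le_mul_of_nonneg_left h2.le hL0.le
    have h7 : L * δ ≤ ε / 2 := by
      have h8 := mul_le_mul_of_nonneg_left hδ2 hL0.le
      have h9 : L * (ε / (2 * L)) = ε / 2 := by field_simp
      linarith
    linarith

end Pool.Agent.T2H06.DYG
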