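import Mathlib

/-!
The three term relations imply the exchange property.
-/

set_option autoImplicit false
set_option linter.unusedVariables false

namespace Pool.Agent.T2H06.DYG

variable {Γ : Type}

/-- the three term relations for a function on the multisets of cardinality `N` -/
def Trop (N : ℕ) (h : Multiset Γ → ℝ) : Prop :=
  ∀ (ω : Multiset Γ) (a b c d : Γ), ω.card + 2 = N →
    h (a ::ₘ b ::ₘ ω) + h (c ::ₘ d ::ₘ ω) ≤
      max (h (a ::ₘ c ::ₘ ω) + h (b ::ₘ d ::ₘ ω)) (h (a ::ₘ d ::ₘ ω) + h (b ::ₘ c ::ₘ ω))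

/-- **The exchange property.** -/
theorem Trop.exch {N : ℕ} {h : Multiset Γ → ℝ} (H : Trop N h) (k : ℕ) :
    ∀ (R U Y : Multiset Γ) (u : Γ), U.card = k → Y.card = k + 1 → R.card + (k + 1) = N →
      ∃ (y : Γ) (Y' : Multiset Γ), Y = y ::ₘ Y' ∧
        h (u ::ₘ (R + U)) + h (R + Y) ≤ h (y ::ₘ (R + U)) + h (u ::ₘ (R + Y')) := by
  classical
  induction k with
  | zero =>
    intro R U Y u hU hY hR
    obtain ⟨y, rfl⟩ := Multiset.card_eq_one.1 hY
    have hU0 : U = 0 := Multiset.card_eq_zero.1 hU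
    subst hU0
    refine ⟨y, 0, rfl, ?_⟩
    rw [add_zero]
    have e : R + {y} = y ::ₘ R := by rw [add_comm, Multiset.singleton_add]
    rw [e]
    linarith
  | succ k ih =>
    intro R U Y u hU hY hR
    obtain ⟨u₀, U', rfl⟩ : ∃ u₀ U', U = u₀ ::ₘ U' := by
      obtain ⟨a, ha⟩ := Multiset.card_pos_iff_exists_mem.1 (by omega : 0 < U.card)
      exact ⟨a, U.erase a, (Multiset.cons_erase ha).symm⟩
    rw [Multiset.card_cons] at hU
    have hne : Y.toFinset.Nonempty := by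
      obtain ⟨a, ha⟩ := Multiset.card_pos_iff_exists_mem.1 (by omega : 0 < Y.card)
      exact ⟨a, Multiset.mem_toFinset.2 ha⟩
    obtain ⟨y₀, hy₀, hmax⟩ := Finset.exists_max_image Y.toFinset
      (fun y => h (u₀ ::ₘ (R + Y.erase y)) + h (y ::ₘ (R + u₀ ::ₘ U'))) hne
    rw [Multiset.mem_toFinset] at hy₀
    obtain ⟨Y₁, hY₁⟩ : ∃ Y₁, Y = y₀ ::ₘ Y₁ := ⟨_, (Multiset.cons_erase hy₀).symm⟩
    subst hY₁
    rw [Multiset.card_cons] at hY
    obtain ⟨y, Y₂, rfl, hle⟩ := ih (u₀ ::ₘ R) U' Y₁ u (by omega) (by omega)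
      (by rw [Multiset.card_cons]; omega)
    rw [Multiset.card_cons] at hY
    obtain ⟨ω, hω⟩ : ∃ ω, ω = R + Y₂ := ⟨_, rfl⟩
    have hωc : ω.card + 2 = N := by rw [hω, Multiset.card_add]; omega
    have h3 := H ω y₀ y u₀ u hωc
    -- normal forms
    have e1 : R + y₀ ::ₘ y ::ₘ Y₂ = y₀ ::ₘ y ::ₘ ω := by
      rw [hω, Multiset.add_cons, Multiset.add_cons]
    have e2 : R + u₀ ::ₘ U' = u₀ ::ₘ (R + U') := by rw [Multiset.add_cons]
    have e3 : (u₀ ::ₘ R) + U' = u₀ ::ₘ (R + U') := by rw [Multiset.cons_add]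
    have e4 : (u₀ ::ₘ R) + y ::ₘ Y₂ = y ::ₘ u₀ ::ₘ ω := by
      rw [hω, Multiset.cons_add, Multiset.add_cons, Multiset.cons_swap]
    have e5 : (u₀ ::ₘ R) + Y₂ = u₀ ::ₘ ω := by rw [hω, Multiset.cons_add]
    rw [e3, e4, e5] at hle
    have hmy := hmax y (Multiset.mem_toFinset.2 (Multiset.mem_cons_of_mem
      (Multiset.mem_cons_self y Y₂)))
    have e6 : (y₀ ::ₘ y ::ₘ Y₂).erase y = y₀ ::ₘ Y₂ := by
      rw [Multiset.cons_swap, Multiset.erase_cons_head]
    have e7 : (y₀ ::ₘ y ::ₘ Y₂).erase y₀ = y ::ₘ Y₂ := Multiset.erase_cons_head _ _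
    simp only [e6, e7, e2] at hmy
    have e8 : u₀ ::ₘ (R + y₀ ::ₘ Y₂) = y₀ ::ₘ u₀ ::ₘ ω := by
      rw [hω, Multiset.add_cons, Multiset.cons_swap]
    have e9 : u₀ ::ₘ (R + y ::ₘ Y₂) = y ::ₘ u₀ ::ₘ ω := by
      rw [hω, Multiset.add_cons, Multiset.cons_swap]
    rw [e8, e9] at hmy
    rw [Multiset.cons_swap u u₀ ω] at hle
    rcases le_total (h (y₀ ::ₘ u₀ ::ₘ ω) + h (y ::ₘ u ::ₘ ω))
      (h (y₀ ::ₘ u ::ₘ ω) + h (y ::ₘ u₀ ::ₘ ω)) with hc | hc
    · -- exchange with `y`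
      rw [max_eq_right hc] at h3
      refine ⟨y, y₀ ::ₘ Y₂, Multiset.cons_swap _ _ _, ?_⟩
      have e10 : u ::ₘ (R + y₀ ::ₘ Y₂) = y₀ ::ₘ u ::ₘ ω := by
        rw [hω, Multiset.add_cons, Multiset.cons_swap]
      rw [e1, e2, e10]
      linarith
    · rw [max_eq_left hc] at h3
      refine ⟨y₀, y ::ₘ Y₂, rfl, ?_⟩
      have e10 : u ::ₘ (R + y ::ₘ Y₂) = y ::ₘ u ::ₘ ω := by
        rw [hω, Multiset.add_cons, Multiset.cons_swap]
      rw [e1, e2, e10]
      linarith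

/-- the exchange property for families -/
theorem Trop.exch_fam {N : ℕ} {h : Multiset Γ → ℝ} (H : Trop (N + 1) h) (s : Fin (N + 2) → Γ) :
    ∃ b : Fin (N + 2) → ℝ, ∀ (t : Γ) (i : Fin (N + 2)), ∃ j, j ≠ i ∧
      b i + h (s i ::ₘ Multiset.replicate N t) ≤ b j + h (s j ::ₘ Multiset.replicate N t) := by
  classical
  refine ⟨fun i => h ((Finset.univ.erase i).val.map s), fun t i => ?_⟩
  obtain ⟨y, Y', hY, hle⟩ := H.exch N 0 (Multiset.replicate N t) ((Finset.univ.erase i).val.map s)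
    (s i) (Multiset.card_replicate _ _) (by
      rw [Multiset.card_map, Finset.card_val, Finset.card_erase_of_mem (Finset.mem_univ i),
        Finset.card_univ, Fintype.card_fin]
      omega) (by rw [Multiset.card_zero]; omega)
  rw [zero_add, zero_add, zero_add] at hle
  have hy : y ∈ (Finset.univ.erase i).val.map s := by
    rw [hY]
    exact Multiset.mem_cons_self _ _
  obtain ⟨j, hj, rfl⟩ := Multiset.mem_map.1 hy
  rw [Finset.mem_val] at hj
  have hji : j ≠ i := (Finset.mem_erase.1 hj).1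
  refine ⟨j, hji, ?_⟩
  have e1 : (Finset.univ.erase i).val.map s =
      s j ::ₘ ((Finset.univ.erase i).erase j).val.map s := by
    conv_lhs => rw [← Finset.insert_erase hj, Finset.insert_val_of_notMem (Finset.notMem_erase j _)]
    rw [Multiset.map_cons]
  have e2 : Y' = ((Finset.univ.erase i).erase j).val.map s := by
    rw [e1] at hY
    exact ((Multiset.cons_inj_right _).1 hY).symm
  have e3 : s i ::ₘ Y' = (Finset.univ.erase j).val.map s := by
    have hi : i ∈ Finset.univ.erase j := Finset.mem_erase.2 ⟨hji.symm, Finset.mem_univ i⟩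
    conv_rhs => rw [← Finset.insert_erase hi, Finset.insert_val_of_notMem (Finset.notMem_erase i _)]
    rw [Multiset.map_cons, e2, Finset.erase_right_comm]
  rw [e3] at hle
  linarith

end Pool.Agent.T2H06.DYG
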