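import Pool.Agent.T2H06.DYG.Exch
import Pool.Agent.T2H06.DYN.AbsC
import Pool.Agent.T2H06.DYN.Lim

/-!
Functions on the multisets of elements of a commutative group with the four point property: the
limit of the logarithms.
-/

set_option autoImplicit false
set_option linter.unusedVariables false
set_option linter.unusedSectionVars false

open Filter Topology
open Pool.Agent.T2H06.DYN (ulim ulim_spec Lor LD tri)

namespace Pool.Agent.T2H06.DYG

variable {Γ : Type} [AddCommGroup Γ]

/-- a positive translation invariant function on the multisets of cardinality `N` with the four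
point property, and which does not change too fast -/
structure GLor (N : ℕ) (F : Multiset Γ → ℝ) : Prop where
  pos : ∀ s, s.card = N → 0 < F s
  trans : ∀ s t, s.card = N → F (s.map (fun x => x + t)) = F s
  four : ∀ (ω : Multiset Γ) (a b c d : Γ), ω.card + 2 = N →
    F (a ::ₘ b ::ₘ ω) * F (c ::ₘ d ::ₘ ω) ≤
      2 * (F (a ::ₘ c ::ₘ ω) * F (b ::ₘ d ::ₘ ω) + F (a ::ₘ d ::ₘ ω) * F (b ::ₘ c ::ₘ ω))
  lip : ∀ t : Γ, ∃ C : ℝ, 0 < C ∧ ∀ (x : Γ) (ω : Multiset Γ), ω.card + 1 = N →
    F (x ::ₘ ω) ≤ C * F ((x + t) ::ₘ ω)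

section

variable {N : ℕ} {F : Multiset Γ → ℝ}

/-- the restriction to a cyclic subgroup -/
theorem GLor.cyc (hF : GLor N F) (a : Γ) :
    Lor N (fun s : Multiset ℤ => F (s.map fun k => k • a)) := by
  refine ⟨fun s hs => hF.pos _ (by rw [Multiset.card_map, hs]), fun s t hs => ?_,
    fun ω x y z w hω => ?_⟩
  · have h1 := hF.trans (s.map fun k => k • a) (t • a) (by rw [Multiset.card_map, hs])
    rw [← h1, Multiset.map_map, Multiset.map_map]
    congr 2
    funext k
    simp only [Function.comp_apply]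
    rw [add_smul]
  · have h1 := hF.four (ω.map fun k => k • a) (x • a) (y • a) (z • a) (w • a)
      (by rw [Multiset.card_map, hω])
    simp only [Multiset.map_cons]
    exact h1

theorem GLor.one_step (hF : GLor N F) (t : Γ) : ∃ C : ℝ, 0 ≤ C ∧ ∀ (x : Γ) (ω : Multiset Γ),
    ω.card + 1 = N → |Real.log (F ((x + t) ::ₘ ω)) - Real.log (F (x ::ₘ ω))| ≤ C := by
  obtain ⟨C, hC0, hC⟩ := hF.lip t
  obtain ⟨C', hC0', hC'⟩ := hF.lip (-t)
  refine ⟨max |Real.log C| |Real.log C'|, le_trans (abs_nonneg _) (le_max_left _ _),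
    fun x ω hω => ?_⟩
  have hc : ∀ z : Γ, (z ::ₘ ω).card = N := fun z => by rw [Multiset.card_cons, hω]
  have h1 := Real.log_le_log (hF.pos _ (hc x)) (hC x ω hω)
  rw [Real.log_mul hC0.ne' (hF.pos _ (hc _)).ne'] at h1
  have h2 := hC' (x + t) ω hω
  rw [add_neg_cancel_right] at h2
  have h3 := Real.log_le_log (hF.pos _ (hc _)) h2
  rw [Real.log_mul hC0'.ne' (hF.pos _ (hc _)).ne'] at h3
  rw [abs_le]
  have h4 := le_abs_self (Real.log C)
  have h5 := le_abs_self (Real.log C')
  have h6 := le_max_left |Real.log C| |Real.log C'|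
  have h7 := le_max_right |Real.log C| |Real.log C'|
  constructor <;> linarith

theorem GLor.one_bound (hF : GLor N F) (t : Γ) : ∃ C : ℝ, 0 ≤ C ∧ ∀ (m : ℕ) (ω : Multiset Γ),
    ω.card + 1 = N → |Real.log (F ((m • t) ::ₘ ω)) - Real.log (F (0 ::ₘ ω))| ≤ C * m := by
  obtain ⟨C, hC0, hC⟩ := hF.one_step t
  refine ⟨C, hC0, fun m ω hω => ?_⟩
  induction m with
  | zero => simp
  | succ m ih =>
    have h1 := hC (m • t) ω hω
    rw [← succ_nsmul] at h1
    have h2 := abs_sub_le (Real.log (F (((m + 1) • t) ::ₘ ω))) (Real.log (F ((m • t) ::ₘ ω)))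
      (Real.log (F (0 ::ₘ ω)))
    push_cast
    linarith

theorem GLor.bound (hF : GLor N F) (S : Multiset Γ) : ∃ C : ℝ, 0 ≤ C ∧ ∀ (m : ℕ) (T : Multiset Γ),
    S.card + T.card = N → |Real.log (F (S.map (fun x => m • x) + T)) -
      Real.log (F (Multiset.replicate S.card 0 + T))| ≤ C * m := by
  induction S using Multiset.induction_on with
  | empty =>
    refine ⟨0, le_rfl, fun m T _ => ?_⟩
    simp
  | cons x S ih =>
    obtain ⟨C, hC0, hC⟩ := ih
    obtain ⟨C', hC0', hC'⟩ := hF.one_bound x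
    refine ⟨C + C', add_nonneg hC0 hC0', fun m T hT => ?_⟩
    rw [Multiset.card_cons] at hT ⊢
    have h1 := hC m ((m • x) ::ₘ T) (by rw [Multiset.card_cons]; omega)
    have h2 := hC' m (Multiset.replicate S.card 0 + T) (by
      rw [Multiset.card_add, Multiset.card_replicate]; omega)
    rw [Multiset.map_cons, Multiset.cons_add, Multiset.replicate_succ, Multiset.cons_add]
    rw [Multiset.add_cons, Multiset.add_cons] at h1
    have h3 := abs_sub_le (Real.log (F ((m • x) ::ₘ (S.map (fun x => m • x) + T))))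
      (Real.log (F ((m • x) ::ₘ (Multiset.replicate S.card 0 + T))))
      (Real.log (F (0 ::ₘ (Multiset.replicate S.card 0 + T))))
    linarith

/-- the limit of the logarithms -/
noncomputable def hh (F : Multiset Γ → ℝ) (S : Multiset Γ) : ℝ :=
  ulim fun m => Real.log (F (S.map fun x => m • x)) / m

theorem GLor.hh_tendsto (hF : GLor N F) {S : Multiset Γ} (hS : S.card = N) :
    Tendsto (fun m : ℕ => Real.log (F (S.map fun x => m • x)) / m) (hyperfilter ℕ : Filter ℕ)
      (𝓝 (hh F S)) := by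
  obtain ⟨C, hC0, hC⟩ := hF.bound S
  obtain ⟨D, hD⟩ : ∃ D, D = |Real.log (F (Multiset.replicate N 0))| := ⟨_, rfl⟩
  have hD0 : 0 ≤ D := by rw [hD]; exact abs_nonneg _
  have key : ∀ m : ℕ, |Real.log (F (S.map fun x => m • x)) / m| ≤ C + D := by
    intro m
    rcases Nat.eq_zero_or_pos m with rfl | hm
    · simp only [CharP.cast_eq_zero, div_zero, abs_zero]
      linarith
    have h1 := hC m 0 (by rw [Multiset.card_zero, add_zero, hS])
    rw [add_zero, add_zero, hS] at h1
    have h2 := abs_sub_abs_le_abs_sub (Real.log (F (S.map fun x => m • x)))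
      (Real.log (F (Multiset.replicate N 0)))
    rw [← hD] at h2
    have hm' : (1 : ℝ) ≤ m := by exact_mod_cast hm
    rw [abs_div, Nat.abs_cast, div_le_iff₀ (by linarith)]
    nlinarith
  refine ulim_spec (c := -(C + D)) (C := C + D) (fun m => ?_) fun m => ?_
  · exact (abs_le.1 (key m)).1
  · exact (abs_le.1 (key m)).2

theorem tendsto_const_div (x : ℝ) :
    Tendsto (fun m : ℕ => x / (m : ℝ)) (hyperfilter ℕ : Filter ℕ) (𝓝 0) :=
  (tendsto_const_div_atTop_nhds_zero_nat x).mono_left Nat.hyperfilter_le_atTop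

theorem GLor.hh_trans (hF : GLor N F) {S : Multiset Γ} (hS : S.card = N) (t : Γ) :
    hh F (S.map fun x => x + t) = hh F S := by
  unfold hh
  congr 1
  funext m
  congr 2
  have h1 := hF.trans (S.map fun x => m • x) (m • t) (by rw [Multiset.card_map, hS])
  rw [← h1, Multiset.map_map, Multiset.map_map]
  congr 2
  funext x
  simp only [Function.comp_apply]
  rw [smul_add]

theorem GLor.trop (hF : GLor N F) : Trop N (hh F) := by
  intro ω a b c d hω
  have hc : ∀ x y : Γ, (x ::ₘ y ::ₘ ω).card = N := fun x y => by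
    rw [Multiset.card_cons, Multiset.card_cons, ← hω]
  have h1 := fun x y => hF.hh_tendsto (hc x y)
  have h4 : Tendsto (fun m : ℕ => Real.log 4 / (m : ℝ)) (hyperfilter ℕ : Filter ℕ) (𝓝 0) :=
    tendsto_const_div _
  have h2 := (((h1 a c).add (h1 b d)).max ((h1 a d).add (h1 b c))).add h4
  rw [add_zero] at h2
  refine le_of_tendsto_of_tendsto' ((h1 a b).add (h1 c d)) h2 fun m => ?_
  rw [← add_div, ← add_div, ← add_div]
  have hm : (0 : ℝ) ≤ m := Nat.cast_nonneg _
  rw [max_div_div_right hm, ← add_div]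
  refine div_le_div_of_nonneg_right ?_ hm
  have hp : ∀ x y : Γ, 0 < F ((x ::ₘ y ::ₘ ω).map fun x => m • x) := fun x y =>
    hF.pos _ (by rw [Multiset.card_map, hc])
  rw [← Real.log_mul (hp _ _).ne' (hp _ _).ne', ← Real.log_mul (hp _ _).ne' (hp _ _).ne',
    ← Real.log_mul (hp _ _).ne' (hp _ _).ne']
  have h3 := hF.four (ω.map fun x => m • x) (m • a) (m • b) (m • c) (m • d)
    (by rw [Multiset.card_map, hω])
  simp only [Multiset.map_cons] at hp ⊢
  rcases le_total (F ((m • a) ::ₘ (m • c) ::ₘ ω.map fun x => m • x) *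
      F ((m • b) ::ₘ (m • d) ::ₘ ω.map fun x => m • x))
    (F ((m • a) ::ₘ (m • d) ::ₘ ω.map fun x => m • x) *
      F ((m • b) ::ₘ (m • c) ::ₘ ω.map fun x => m • x)) with h | h
  · refine le_trans ?_ (add_le_add_left (le_max_right _ _) _)
    rw [← Real.log_mul (mul_pos (hp _ _) (hp _ _)).ne' (by norm_num)]
    refine Real.log_le_log (mul_pos (hp _ _) (hp _ _)) ?_
    linarith
  · refine le_trans ?_ (add_le_add_left (le_max_left _ _) _)
    rw [← Real.log_mul (mul_pos (hp _ _) (hp _ _)).ne' (by norm_num)]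
    refine Real.log_le_log (mul_pos (hp _ _) (hp _ _)) ?_
    linarith

/-- the growth rate of the first degrees -/
noncomputable def cc (N : ℕ) (F : Multiset Γ → ℝ) (a : Γ) : ℝ :=
  hh F (a ::ₘ Multiset.replicate (N - 1) 0)

theorem cc_eq (hF : GLor N F) (hN : 1 ≤ N) (a t : Γ) :
    hh F (a ::ₘ Multiset.replicate (N - 1) t) = cc N F (a - t) := by
  have h1 := hF.hh_trans (S := (a - t) ::ₘ Multiset.replicate (N - 1) 0)
    (by rw [Multiset.card_cons, Multiset.card_replicate]; omega) t
  rw [Multiset.map_cons, Multiset.map_replicate, sub_add_cancel, zero_add] at h1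
  exact h1

theorem hh_rep (hF : GLor N F) (hN : 1 ≤ N) (a : Γ) : hh F (Multiset.replicate N a) = 0 := by
  have h1 := hF.hh_trans (S := Multiset.replicate N 0) (Multiset.card_replicate _ _) a
  rw [Multiset.map_replicate, zero_add] at h1
  rw [h1]
  have h2 := hF.hh_tendsto (S := Multiset.replicate N 0) (Multiset.card_replicate _ _)
  refine tendsto_nhds_unique h2 ?_
  refine (tendsto_const_div (Real.log (F (Multiset.replicate N 0)))).congr fun m => ?_
  rw [Multiset.map_replicate, smul_zero]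

theorem cc_zero (hF : GLor N F) (hN : 1 ≤ N) : cc N F 0 = 0 := by
  have h1 := hh_rep hF hN 0
  unfold cc
  have e : (0 : Γ) ::ₘ Multiset.replicate (N - 1) 0 = Multiset.replicate N 0 := by
    rw [← Multiset.replicate_succ]
    congr 1
    omega
  rw [e, h1]

theorem cc_add (hF : GLor N F) (hN : 1 ≤ N) (a b : Γ) :
    cc N F (a + b) ≤ cc N F a + cc N F b := by
  obtain ⟨k, rfl⟩ : ∃ k, N = k + 1 := ⟨N - 1, by omega⟩
  obtain ⟨y, Y', hY, hle⟩ := hF.trop.exch k 0 (Multiset.replicate k 0) (Multiset.replicate (k + 1) a)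
    (a + b) (Multiset.card_replicate _ _) (Multiset.card_replicate _ _)
    (by rw [Multiset.card_zero]; omega)
  have hy : y = a := Multiset.eq_of_mem_replicate (hY ▸ Multiset.mem_cons_self y Y')
  subst hy
  have hY' : Y' = Multiset.replicate k y := by
    rw [Multiset.replicate_succ] at hY
    exact ((Multiset.cons_inj_right _).1 hY).symm
  subst hY'
  rw [zero_add, zero_add, zero_add, hh_rep hF hN] at hle
  have h1 := cc_eq hF hN (y + b) 0
  have h2 := cc_eq hF hN y 0
  have h3 := cc_eq hF hN (y + b) y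
  simp only [Nat.add_sub_cancel, sub_zero] at h1 h2 h3
  rw [h1, h2, h3, add_sub_cancel_left] at hle
  linarith

theorem LD_cyc (F : Multiset Γ → ℝ) (N : ℕ) (a : Γ) (m : ℕ) :
    LD (fun s : Multiset ℤ => F (s.map fun k => k • a)) N 1 m =
      Real.log (F ((m • a) ::ₘ Multiset.replicate (N - 1) 0)) := by
  unfold LD tri
  simp only []
  rw [Multiset.map_add, Multiset.map_add, Multiset.map_replicate, Multiset.map_replicate,
    Multiset.map_replicate, Multiset.replicate_one, Multiset.replicate_zero, add_zero,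
    Multiset.singleton_add, zero_smul, natCast_zsmul]

/-- the limit is a limit along the natural numbers -/
theorem cc_lim (hF : GLor N F) (hN : 1 ≤ N) (a : Γ) :
    Tendsto (fun m : ℕ => LD (fun s : Multiset ℤ => F (s.map fun k => k • a)) N 1 m / m) atTop
      (𝓝 (cc N F a)) := by
  obtain ⟨d, hd⟩ := (hF.cyc a).exists_rate (p := 1) hN
  have h1 := hF.hh_tendsto (S := a ::ₘ Multiset.replicate (N - 1) 0)
    (by rw [Multiset.card_cons, Multiset.card_replicate]; omega)
  have h2 : d = cc N F a := by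
    refine tendsto_nhds_unique (hd.mono_left Nat.hyperfilter_le_atTop) (h1.congr fun m => ?_)
    rw [LD_cyc, Multiset.map_cons, Multiset.map_replicate, smul_zero]
  rw [← h2]
  exact hd

theorem cc_smul (hF : GLor N F) (hN : 1 ≤ N) (a : Γ) (k : ℕ) : cc N F (k • a) = k * cc N F a := by
  rcases Nat.eq_zero_or_pos k with rfl | hk
  · rw [zero_smul, cc_zero hF hN, Nat.cast_zero, zero_mul]
  have h1 := cc_lim hF hN (k • a)
  have h2 := cc_lim hF hN a
  have h3 : Tendsto (fun m : ℕ => k * m) atTop atTop :=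
    tendsto_atTop_mono (fun m => by
      simp only [id_eq]
      exact Nat.le_mul_of_pos_left m hk) tendsto_id
  have h4 := (h2.comp h3).const_mul (k : ℝ)
  refine tendsto_nhds_unique h1 (h4.congr fun m => ?_)
  simp only [Function.comp_apply]
  have hk' : (k : ℝ) ≠ 0 := by exact_mod_cast hk.ne'
  rw [LD_cyc, LD_cyc, mul_comm k m, mul_smul]
  push_cast
  by_cases hm : (m : ℝ) = 0
  · rw [hm]; simp
  · field_simp

theorem cc_nonneg (hF : GLor N F) (hN : 1 ≤ N) (a : Γ) : 0 ≤ cc N F a := by
  refine le_of_tendsto_of_tendsto' (tendsto_const_div_atTop_nhds_zero_nat _) (cc_lim hF hN a)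
    fun m => div_le_div_of_nonneg_right ((hF.cyc a).bddBelow hN m) (Nat.cast_nonneg _)

/-- **The exchange property of the growth rate.** -/
theorem cc_exch {N : ℕ} (hF : GLor (N + 1) F) (s : Fin (N + 2) → Γ) :
    ∃ b : Fin (N + 2) → ℝ, ∀ (t : Γ) (i : Fin (N + 2)), ∃ j, j ≠ i ∧
      b i + cc (N + 1) F (s i - t) ≤ b j + cc (N + 1) F (s j - t) := by
  obtain ⟨b, hb⟩ := hF.trop.exch_fam s
  refine ⟨b, fun t i => ?_⟩
  obtain ⟨j, hj, hle⟩ := hb t i
  have h1 := fun i => cc_eq hF (Nat.le_add_left 1 N) (s i) t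
  simp only [Nat.add_sub_cancel] at h1
  rw [h1, h1] at hle
  exact ⟨j, hj, hle⟩

end

end Pool.Agent.T2H06.DYG
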