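import Pool.Agent.T2H06.DYG.ConvC
import Pool.Agent.T2H06.DYG.Lor
import Pool.Agent.T2H06.DYG.Chain
import Pool.Agent.T2H06.DYG.LimB
import Pool.Agent.T2H06.DYN.Main

/-!
**Commuting birational self-maps and the numerical dimension of `K_X`.**
-/

set_option autoImplicit false
set_option linter.overlappingInstances false
set_option linter.unusedSectionVars false
set_option linter.unusedVariables false

open FF Module MvPolynomial Filter Topology Pool.Agent.W602.GT Pool.Agent.W603.LV Pool.Agent.W619.PQ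
open Pool.Agent.Y172 Pool.Agent.Y191 Pool.Agent.R887
open Pool.Agent.T2H06.DYN (ulim ulim_spec MM Dom im im_im im_refl im_fg VH VS Lor LD tri tri_card
  exists_lin exists_trans exists_hyp_dom VH_fg VS_fg VS_mono DynDegree iterDegrees)

namespace Pool.Agent.T2H06.DYG

section fam

variable {Γ : Type} [AddCommGroup Γ] {K : Type} [Field K] [Algebra ℂ K] {n : ℕ}
  {ρ : Γ → (K ≃ₐ[ℂ] K)} {H : Submodule ℂ K} {W : ℕ → ℕ → Submodule ℂ K} {M β : ℕ}

theorem glor (hF : GFam n ρ H W M β) {μ : ℕ → ℕ} (hμ : ∀ k, 1 ≤ μ k) {i : ℕ} (hi : i ≤ n)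
    (hpos : ∀ s : Multiset Γ, i + s.card = n → 0 < GG ρ H W μ i s) :
    GLor (n - i) (GG ρ H W μ i) := by
  refine ⟨fun s hs => hpos s (by omega), fun s t hs => GG_trans hF hμ (by omega) t,
    fun ω a b c d hω => GG_four hF hμ (by omega) a b c d, fun t => ?_⟩
  obtain ⟨C, hC⟩ := NN_hyp hF {t}
  refine ⟨C + 1, by positivity, fun x ω hω => ?_⟩
  have key : ∀ ω : Multiset Γ, ω.card + 1 = n - i →
      GG ρ H W μ i (0 ::ₘ ω) ≤ C * GG ρ H W μ i (t ::ₘ ω) := by
    intro ω hω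
    have h0 : i + (0 ::ₘ ω).card = n := by rw [Multiset.card_cons]; omega
    have ht : i + (t ::ₘ ω).card = n := by rw [Multiset.card_cons]; omega
    refine le_of_tendsto_of_tendsto' (GG_tendsto hF hμ h0) ((GG_tendsto hF hμ ht).const_mul _)
      fun τ => ?_
    refine le_of_tendsto_of_tendsto' (PP_tendsto hF hμ h0 τ)
      ((PP_tendsto hF hμ ht τ).const_mul _) fun k => ?_
    unfold QQ
    have h3 := hC i (μ k) (μ k / (τ + 1)) ω (hμ k) (by rw [Multiset.card_singleton]; omega)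
    rw [Multiset.card_singleton, Multiset.replicate_one, Multiset.singleton_add,
      Multiset.singleton_add] at h3
    have h4 : (NN ρ H W i (μ k) (μ k / (τ + 1)) (0 ::ₘ ω) : ℝ) ≤
        C * NN ρ H W i (μ k) (μ k / (τ + 1)) (t ::ₘ ω) := by exact_mod_cast h3
    rw [← mul_div_assoc]
    exact div_le_div_of_nonneg_right h4 (by positivity)
  have h1 := key (ω.map fun z => z + -x) (by rw [Multiset.card_map, hω])
  have h2 := GG_trans hF hμ (i := i) (s := x ::ₘ ω) (by rw [Multiset.card_cons]; omega) (-x)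
  have h3 := GG_trans hF hμ (i := i) (s := (x + t) ::ₘ ω) (by rw [Multiset.card_cons]; omega) (-x)
  rw [Multiset.map_cons] at h2 h3
  have e1 : x + -x = 0 := add_neg_cancel x
  have e2 : x + t + -x = t := by abel
  rw [e1] at h2
  rw [e2] at h3
  rw [h2, h3] at h1
  have h4 := hpos ((x + t) ::ₘ ω) (by rw [Multiset.card_cons]; omega)
  linarith

/-- the growth rates of all elements are bounded by the growth rate of the first degrees with `j`
factors `K_X` -/
theorem rates (hF : GFam n ρ H W M β) {μ : ℕ → ℕ} (hμ : ∀ k, 1 ≤ μ k) {j : ℕ} (hj : j ≤ n)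
    (hpos : ∀ i ≤ j, ∀ s : Multiset Γ, i + s.card = n → 0 < GG ρ H W μ i s) (a : Γ) {d : ℕ → ℝ}
    (hd : ∀ p ≤ n, Tendsto (fun m : ℕ => LD (fun s : Multiset ℤ =>
      GG ρ H W μ 0 (s.map fun k => k • a)) n p m / m) atTop (𝓝 (d p))) :
    (j < n → ∀ p ≤ n, d p ≤ n * cc (n - j) (GG ρ H W μ j) a) ∧ (j = n → ∀ p ≤ n, d p ≤ 0) := by
  classical
  have hL : ∀ i ≤ j, Lor (n - i) (fun s : Multiset ℤ => GG ρ H W μ i (s.map fun k => k • a)) :=
    fun i hi => (glor hF hμ (hi.trans hj) (hpos i hi)).cyc a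
  have hex : ∀ p, ∃ r : ℝ, p ≤ n - j → Tendsto (fun m : ℕ => LD (fun s : Multiset ℤ =>
      GG ρ H W μ j (s.map fun k => k • a)) (n - j) p m / m) atTop (𝓝 r) := by
    intro p
    by_cases hp : p ≤ n - j
    · obtain ⟨r, hr⟩ := (hL j le_rfl).exists_rate hp
      exact ⟨r, fun _ => hr⟩
    · exact ⟨0, fun h => absurd h hp⟩
  choose r hr using hex
  have hch := chain hj (F := fun i s => GG ρ H W μ i (s.map fun k => k • a)) hL (by
    intro i hi ω x y z hω
    have h1 := GG_mixed hF hμ (i := i) (s := ω.map fun k => k • a) (by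
      rw [Multiset.card_map]; omega) (x • a) (y • a) (z • a)
    simp only [Multiset.map_cons]
    exact h1) hd hr
  have hlin := rate_linear (hL j le_rfl) hr
  constructor
  · intro hjn p hp
    obtain ⟨q, hq, hle⟩ := hch p hp
    have h1 : r 1 = cc (n - j) (GG ρ H W μ j) a :=
      tendsto_nhds_unique (hr 1 (by omega)) (cc_lim (glor hF hμ hj (hpos j le_rfl)) (by omega) a)
    have h2 := cc_nonneg (glor hF hμ hj (hpos j le_rfl)) (by omega) a
    refine hle.trans ((hlin q hq).trans ?_)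
    rw [h1]
    refine mul_le_mul_of_nonneg_right ?_ h2
    exact_mod_cast (show q ≤ n by omega)
  · intro hjn p hp
    obtain ⟨q, hq, hle⟩ := hch p hp
    have hq0 : q = 0 := by omega
    refine hle.trans ((hlin q hq).trans ?_)
    rw [hq0, Nat.cast_zero, zero_mul]

end fam

section main

variable {K : Type} [Field K] [Algebra ℂ K] {N : ℕ} {y : Fin (N + 1) → K} {n : ℕ}

theorem exists_gfam {Γ : Type} [AddCommGroup Γ] {ρ : Γ → (K ≃ₐ[ℂ] K)}
    (hρ : ∀ s t, ρ (s + t) = ρ s * ρ t)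
    (hy : NormalModel y) (hn : Algebra.trdeg ℂ K = n) (hn0 : 0 < n)
    (hcan : Canonical y n) {x : Fin n → K} {E : Fin n → Derivation ℂ K K}
    (hx : IsTranscendenceBasis ℂ x) (hE : ∀ i j, E i (x j) = if i = j then 1 else 0)
    (hfr : IsFrame E) {i : Fin (N + 1)} (hi : y i ≠ 0) {A : Place ℂ K → ℚ} (hA : Effective y A)
    (hAP : ∀ P l, IsPrimeDivisor y P → Centred y l P → A P = P.ord (y i / y l)) :
    ∃ M β : ℕ, GFam n ρ (VH y) (fun m b => VS y n m (b • A) E) M β := by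
  obtain ⟨M, β, hM⟩ := exists_lin hy hn hn0 hcan hA hx hE hfr
  have h0 : ρ 0 = 1 := by
    have h1 := hρ 0 0
    rw [add_zero] at h1
    exact left_eq_mul.1 h1
  exact ⟨M, β, ⟨hn, h0, hρ, VH_fg, fun m b hm => VS_fg hy hn hA E hm b,
    fun m b b' hb => VS_mono hA hb,
    fun m b hm => hM m b hm, fun t => exists_trans hy hn hcan hx hE hfr hi hAP (ρ t),
    fun t => exists_hyp_dom hy hi (ρ t)⟩⟩

theorem rho_zsmul {Γ : Type} [AddCommGroup Γ] {ρ : Γ → (K ≃ₐ[ℂ] K)}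
    (hρ : ∀ s t, ρ (s + t) = ρ s * ρ t) (a : Γ) (k : ℤ) : ρ (k • a) = ρ a ^ k := by
  obtain ⟨f, hf⟩ : ∃ f : Multiplicative Γ →* (K ≃ₐ[ℂ] K), ∀ a, f (Multiplicative.ofAdd a) = ρ a :=
    ⟨MonoidHom.mk' (fun a => ρ (Multiplicative.toAdd a)) fun a b => hρ _ _, fun a => rfl⟩
  rw [← hf, ← hf, ofAdd_zsmul, map_zpow]

/-- **Commuting birational self-maps.** -/
theorem commuting {r : ℕ} (hr : 0 < r) {ρ : (Fin r → ℤ) → (K ≃ₐ[ℂ] K)}
    (hρ : ∀ s t, ρ (s + t) = ρ s * ρ t)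
    (hy : NormalModel y) (hn : Algebra.trdeg ℂ K = n) (hn0 : 0 < n)
    (hcan : Canonical y n) {j : ℕ} (hj : j ≤ n) (hjr : n ≤ r + j) (hnd : ¬ NumDimLt y n 0 j)
    {ε : ℝ} (hε : 0 < ε) :
    ∃ a : Fin r → ℤ, a ≠ 0 ∧ ∀ p ≤ n, ∀ δ : ℝ, DynDegree y n (ρ a) p δ → δ < 1 + ε := by
  classical
  obtain ⟨i, hi⟩ := hy.ne
  obtain ⟨A, hA, hAP⟩ := exists_hyp hy hi
  obtain ⟨x, E, hx, hE⟩ := exists_crd hn (k := ℂ) (K := K)
  have hfr : IsFrame E := fun F => ⟨fun j => F (x j),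
    (Pool.Agent.W73.PG.PULL.expand x hx E hE F).symm⟩
  obtain ⟨M, β, hF⟩ := exists_gfam hρ hy hn hn0 hcan hx hE hfr hi hA hAP
  obtain ⟨M₁, β₁, hF₁⟩ := DYN.exists_fam hy hn hn0 hcan hx hE hfr hi hA hAP 1
  obtain ⟨ε₁, hε₁, h⟩ := DYN.not_numDimLt hy hn hn0 hfr hi hA hAP hF₁ hj hnd
  choose μ ν hμ hν hle using h
  have hNN : ∀ k, DYN.NN (1 : K ≃ₐ[ℂ] K) (VH y) (fun m b => VS y n m (b • A) E) j (μ k) (ν k)
      (Multiset.replicate (n - j) 0) = NN ρ (VH y) (fun m b => VS y n m (b • A) E) j (μ k) (ν k)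
      (Multiset.replicate (n - j) 0) := by
    intro k
    unfold DYN.NN NN
    rw [Multiset.map_replicate, Multiset.map_replicate, AA_zero hF, DYN.AA_zero]
  have hrep : j + (Multiset.replicate (n - j) (0 : Fin r → ℤ)).card = n := by
    rw [Multiset.card_replicate]; omega
  have hpos : 0 < GG ρ (VH y) (fun m b => VS y n m (b • A) E) μ j
      (Multiset.replicate (n - j) 0) := by
    refine hε₁.trans_le (le_ciInf fun τ => ?_)
    refine ge_of_tendsto (PP_tendsto hF hμ hrep τ) ?_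
    filter_upwards [ev_ge τ] with k hk
    have hm : (0 : ℝ) < μ k := by exact_mod_cast hμ k
    unfold QQ
    rw [le_div_iff₀ (by positivity)]
    refine (hle k).trans ?_
    rw [hNN]
    have h2 : ν k ≤ μ k / (τ + 1) := by
      rw [Nat.le_div_iff_mul_le (Nat.succ_pos τ)]
      exact (Nat.mul_le_mul_left _ (by omega)).trans (hν k)
    exact_mod_cast NN_mono hF (hμ k) h2 hrep
  have hallpos := GG_pos hF hμ hpos hj
  have hlor := glor hF hμ hj (hallpos j le_rfl)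
  -- the small element
  obtain ⟨ε₀, hε₀, hexp⟩ : ∃ ε₀ : ℝ, 0 < ε₀ ∧ Real.exp (n * ε₀) < 1 + ε := by
    have h1 : 0 < Real.log (1 + ε) := Real.log_pos (by linarith)
    refine ⟨Real.log (1 + ε) / (2 * n), by positivity, ?_⟩
    rw [← Real.exp_log (show 0 < 1 + ε by linarith)]
    refine Real.exp_lt_exp.2 ?_
    rw [Real.exp_log (show 0 < 1 + ε by linarith)]
    have hn' : (0 : ℝ) < n := by exact_mod_cast hn0
    have e : (n : ℝ) * (Real.log (1 + ε) / (2 * n)) = Real.log (1 + ε) / 2 := by field_simp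
    rw [e]
    linarith
  have hsmall : ∃ a : Fin r → ℤ, a ≠ 0 ∧ (j < n →
      cc (n - j) (GG ρ (VH y) (fun m b => VS y n m (b • A) E) μ j) a < ε₀) := by
    rcases hj.lt_or_eq with hjn | hjn
    · obtain ⟨k, hk⟩ : ∃ k, n - j = k + 1 := ⟨n - j - 1, by omega⟩
      have hlor' := hlor
      rw [hk] at hlor'
      have hsub : SubL r (cc (k + 1) (GG ρ (VH y) (fun m b => VS y n m (b • A) E) μ j)) :=
        ⟨cc_zero hlor' (by omega), cc_add hlor' (by omega), fun l a => cc_smul hlor' (by omega) a l,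
          cc_nonneg hlor' (by omega)⟩
      obtain ⟨a, ha0, ha⟩ := small (N := k) hsub (fun s => cc_exch hlor' s) (by omega) hε₀
      refine ⟨a, ha0, fun _ => ?_⟩
      rw [hk]
      exact ha
    · refine ⟨fun _ => 1, fun h => ?_, fun h => absurd h (by omega)⟩
      have := congrFun h ⟨0, hr⟩
      simp at this
  obtain ⟨a, ha0, ha⟩ := hsmall
  refine ⟨a, ha0, ?_⟩
  -- the rates of the powers of `ρ a`
  obtain ⟨M₂, β₂, hF₂⟩ := DYN.exists_fam hy hn hn0 hcan hx hE hfr hi hA hAP (ρ a)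
  have hMM : ∀ s : Multiset ℤ, s.card = n → GG ρ (VH y) (fun m b => VS y n m (b • A) E) μ 0
      (s.map fun k => k • a) = MM (s.map (DYN.AA (ρ a) (VH y))) := by
    intro s hs
    rw [GG_zero hF hμ (by rw [Multiset.card_map, hs]), Multiset.map_map]
    congr 3
    funext k
    simp only [Function.comp_apply]
    unfold AA DYN.AA
    rw [rho_zsmul hρ]
  have hlor0 := (glor hF hμ (Nat.zero_le n) (hallpos 0 (Nat.zero_le j))).cyc a
  have hex : ∀ p, ∃ d : ℝ, p ≤ n → Tendsto (fun m : ℕ => LD (fun s : Multiset ℤ =>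
      GG ρ (VH y) (fun m b => VS y n m (b • A) E) μ 0 (s.map fun k => k • a)) n p m / m) atTop
        (𝓝 d) := by
    intro p
    by_cases hp : p ≤ n
    · obtain ⟨d, hd⟩ := hlor0.exists_rate (p := p) (by omega)
      exact ⟨d, fun _ => hd⟩
    · exact ⟨0, fun h => absurd h hp⟩
  choose d hd using hex
  obtain ⟨h1, h2⟩ := rates hF hμ hj hallpos a hd
  have hdle : ∀ p ≤ n, d p ≤ n * ε₀ := by
    intro p hp
    rcases hj.lt_or_eq with hjn | hjn
    · exact (h1 hjn p hp).trans (mul_le_mul_of_nonneg_left (ha hjn).le (Nat.cast_nonneg n))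
    · exact (h2 hjn p hp).trans (by positivity)
  intro p hp δ hδ
  obtain ⟨D, hD, hlim⟩ := hδ
  have hposm : ∀ m : ℕ, 0 < MM ((tri m 0 0 p 0 (n - p)).map (DYN.AA (ρ a) (VH y))) := fun m =>
    DYN.MM_pos hy hn hF₂ (by rw [tri_card]; omega)
  have hDm : ∀ m, D m = MM ((tri m 0 0 p 0 (n - p)).map (DYN.AA (ρ a) (VH y))) := fun m =>
    (hD m).unique (DYN.isGreatest_iter hn hF₂ hp m (hposm m))
  have h3 : Tendsto (fun m : ℕ => Real.log (D m) / m) atTop (𝓝 (d p)) := by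
    refine (hd p hp).congr fun m => ?_
    rw [hDm]
    have h6 := hMM (tri m 0 0 p 0 (n - p)) (by rw [tri_card]; omega)
    unfold LD
    beta_reduce
    rw [h6]
  have h4 := DYN.tendsto_root (fun m => by rw [hDm]; exact hposm m) h3
  have h5 := tendsto_nhds_unique hlim h4
  rw [h5]
  exact (Real.exp_le_exp.2 (hdle p hp)).trans_lt hexp

/-- **Abundance and commuting birational self-maps.** -/
theorem commuting_abundance {r : ℕ} (hr : 0 < r) {ρ : (Fin r → ℤ) → (K ≃ₐ[ℂ] K)}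
    (hρ : ∀ s t, ρ (s + t) = ρ s * ρ t)
    (hy : NormalModel y) (hn : Algebra.trdeg ℂ K = n) (hn0 : 0 < n)
    (hcan : Canonical y n) {ε : ℝ} (hε : 0 < ε)
    (hent : ∀ a : Fin r → ℤ, a ≠ 0 → ∃ p ≤ n, ∃ δ : ℝ, 1 + ε ≤ δ ∧ DynDegree y n (ρ a) p δ) :
    (∀ j ≤ n, n ≤ r + j → NumDimLt y n 0 j) ∧
      ∀ k < n, n ≤ r + k + 1 → KodairaGe y n k → KodairaEq y n k ∧ NumDimEq y n k := by
  have h1 : ∀ j ≤ n, n ≤ r + j → NumDimLt y n 0 j := by
    intro j hj hjr
    by_contra hnd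
    obtain ⟨a, ha0, ha⟩ := commuting hr hρ hy hn hn0 hcan hj hjr hnd hε
    obtain ⟨p, hp, δ, hδ, hdyn⟩ := hent a ha0
    have := ha p hp δ hdyn
    linarith
  refine ⟨h1, fun k hk hkr hkod => ?_⟩
  have h2 := h1 (k + 1) hk (by omega)
  have key : ∀ j ≤ n, NumDimLt y n 0 j → ¬ KodairaGe y n j := by
    rintro j hj hnum ⟨m, hm, ω, E, hω, h0, hind⟩
    refine kappa_lt hy hn hj hnum hm (fun i => ?_) h0 hind
    rw [smul_zero]
    exact hω i
  exact ⟨⟨hkod, key (k + 1) hk h2⟩, h2, fun h3 => key k hk.le h3 hkod⟩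

end main

end Pool.Agent.T2H06.DYG
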